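import Pool.Agent.Lib.MP_6d445e_gt.Iface2

/-!
# Statements of the modules, part 4: the iteration without an inaccessible cardinal

The length of the iteration is a regular cardinal `κ > ℵ₀` with `c ^ ℵ₀ < κ` for `c < κ`, for example
the successor of the continuum.  The algebras of the iteration need not be small, but have small
relatively dense sets `M i`.  The proofs are in `Paper4.md`.
-/

universe u v w

open Cardinal Filter

namespace Pool.Agent.Lib.MP_6d445e_gt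

open Pool.Agent.Lib.MP_100a6c_lc
open Pool.Agent.Lib.MP_c5d73d_lc.F (pr)
open Pool.Agent.Lib.MP_e6fef2_lc

/-- `I` is a well-order of type the regular cardinal `κ > ℵ₀`, and `c ^ ℵ₀ < κ` for `c < κ`. -/
structure Idw (κ : Cardinal.{u}) (I : Type u) [LinearOrder I] : Prop where
  card : #I = κ
  reg : κ.IsRegular
  unc : ℵ₀ < κ
  pow : ∀ c < κ, c ^ ℵ₀ < κ
  seg : ∀ i : I, #(Set.Iio i) < κ

/-- IDW. -/
def IdwStatement : Prop :=
  (∃ κ : Cardinal.{u}, Idw κ κ.ord.ToType) ∧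
  ∀ (κ : Cardinal.{u}) (I : Type u) [LinearOrder I] [WellFoundedLT I], Idw κ I →
    (∀ Z : Set I, #Z < κ → ∃ i, ∀ z ∈ Z, z < i) ∧ #W.{u} < κ ∧ #Sw.{u} < κ ∧ KC I Sw.{u} ∧
    ∀ (h : I → I) (i : I), ∃ δ, i < δ ∧ UC δ ∧ ∀ j < δ, h j < δ

section

variable {L : Type u} [LinearOrder L] (κ : Cardinal.{u})
  (A : L → Type u) [∀ i, CompleteBooleanAlgebra (A i)] (f : ∀ i j, A i → A j)
  (ι : ∀ i, H1.RO Sw.{u} → A i) (M : ∀ i, Set (A i))

/-- The properties of the chain of the iteration. -/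
structure GoodC : Prop where
  ch : IsCh A f
  ιce : ∀ i, IsCE (ι i)
  ιcomp : ∀ i j, i ≤ j → ∀ x, f i j (ι i x) = ι j x
  pe : ∀ i j, i ≤ j → PE (f i j)
  ιpe : ∀ i, PE (ι i)
  tp : ∀ j, TPat A f j
  dp : ∀ j, Order.IsSuccLimit j → DPat A f j
  sig : ∀ i, SigC (M i)
  Mmap : ∀ i j, i ≤ j → ∀ m ∈ M i, f i j m ∈ M j
  Mcard : ∀ i, #(M i) < κ
  Mdm : ∀ i, DM (ι i) (M i)
  pp : ∀ i, PP (ι i)
  pres : ∀ i j, i ≤ j → PRES (f i j)

variable {C : Type u} [CompleteBooleanAlgebra C] (e : ∀ i, A i → C) (ιC : H1.RO Sw.{u} → C)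
  (M' : Set C)

/-- The properties of the next algebra. -/
structure GoodT : Prop where
  top : IsTop A f e
  ιce : IsCE ιC
  ιcomp : ∀ i x, e i (ι i x) = ιC x
  pe : ∀ i, PE (e i)
  ιpe : PE ιC
  tp : TP A f e
  dp : Nonempty L → NoMaxOrder L → DP A e
  sig : SigC M'
  Mmap : ∀ i, ∀ m ∈ M i, e i m ∈ M'
  Mcard : #M' < κ
  Mdm : DM ιC M'
  pp : PP ιC
  pres : ∀ i, PRES (e i)

end

/-- TOP0W: the first algebra. -/
def Top0wStatement : Prop := ∀ (κ : Cardinal.{u}), ℵ₀ < κ →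
  ∀ (L : Type u) [LinearOrder L] [IsEmpty L] (A : L → Type u)
  [∀ i, CompleteBooleanAlgebra (A i)] (f : ∀ i j, A i → A j) (ι : ∀ i, H1.RO Sw.{u} → A i)
  (M : ∀ i, Set (A i)),
    GoodT κ A f ι M (C := H1.RO Sw.{u}) (fun i => isEmptyElim i) (fun x => x) {⊤, ⊥}

/-- TOPLW: the next algebra at limits. -/
def ToplwStatement : Prop := ∀ (κ : Cardinal.{u}) (I : Type u) [LinearOrder I] [WellFoundedLT I],
  Idw κ I → ∀ (L : Type u) [LinearOrder L] [Nonempty L] [NoMaxOrder L], #L < κ →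
  ∀ (A : L → Type u) [∀ i, CompleteBooleanAlgebra (A i)] (f : ∀ i j, A i → A j)
  (ι : ∀ i, H1.RO Sw.{u} → A i) (M : ∀ i, Set (A i)), GoodC κ A f ι M →
    ∃ (C : Type u) (_ : CompleteBooleanAlgebra C) (e : ∀ i, A i → C) (ιC : H1.RO Sw.{u} → C)
      (M' : Set C), GoodT κ A f ι M e ιC M'

/-- TOPMW: the next algebra at successors. -/
def TopmwStatement : Prop := ∀ (κ : Cardinal.{u}) (I : Type u) [LinearOrder I] [WellFoundedLT I],
  Idw κ I → ∀ (L : Type u) [LinearOrder L] (A : L → Type u)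
  [∀ i, CompleteBooleanAlgebra (A i)] (f : ∀ i j, A i → A j) (ι : ∀ i, H1.RO Sw.{u} → A i)
  (M : ∀ i, Set (A i)), GoodC κ A f ι M → ∀ m : L, (∀ i, i ≤ m) →
    ∃ M' : Set (MC (A m)), GoodT κ A f ι M (C := MC (A m)) (fun i a => mE (A m) (f i m a))
      (fun x => mE (A m) (ι m x)) M'

/-- The properties of stage `β` of the iteration. -/
structure OkW {I : Type u} [LinearOrder I] (κ : Cardinal.{u}) (β : I)
    (X : I → St I Sw.{u}) : Prop where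
  good : GoodT κ (fun i : Set.Iio β => (X i).A) (fm Subtype.val fun i : Set.Iio β => X i)
    (fun i => (X i).ι) (fun i => (X i).M) (fun i a => (X β).mp i.1 ⟨(X i).A, a⟩) (X β).ι (X β).M
  id : ∀ a : (X β).A, (X β).mp β ⟨(X β).A, a⟩ = a
  succ : ∀ i, i ⋖ β → ∃ φ : MC (X i).A → (X β).A, IsCE φ ∧ Function.Surjective φ ∧
    ∀ a : (X i).A, φ (mE (X i).A a) = (X β).mp i ⟨(X i).A, a⟩

/-- OKGW: stages which are ok form a good chain. -/
def OkgwStatement : Prop := ∀ (κ : Cardinal.{u}) (I : Type u) [LinearOrder I] [WellFoundedLT I]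
  (X : I → St I Sw.{u}) (L : Type u) [LinearOrder L] (φ : L → I), StrictMono φ →
  (∀ l, ∀ i ≤ φ l, ∃ l', φ l' = i) → (∀ l, OkW κ (φ l) X) →
    GoodC κ (fun l => (X (φ l)).A) (fm φ fun l => X (φ l)) (fun l => (X (φ l)).ι)
      fun l => (X (φ l)).M

/-- STEPW: the step of the recursion. -/
def StepwStatement : Prop := ∀ (κ : Cardinal.{u}) (I : Type u) [LinearOrder I] [WellFoundedLT I],
  Idw κ I → ∀ (β : I) (X : I → St I Sw.{u}), (∀ γ < β, OkW κ γ X) →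
    ∃ Y, OkW κ β (Function.update X β Y)

/-- KCCW: the chain condition of the top of a chain of length `κ`, and every element is old. -/
def KccwStatement : Prop := ∀ (κ : Cardinal.{u}) (I : Type u) [LinearOrder I] [WellFoundedLT I],
  Idw κ I → ∀ (A : I → Type u) [∀ i, CompleteBooleanAlgebra (A i)] (f : ∀ i j, A i → A j)
  (ι : ∀ i, H1.RO Sw.{u} → A i) (M : ∀ i, Set (A i)), GoodC κ A f ι M → ∀ (C : Type u)
  [CompleteBooleanAlgebra C] (e : ∀ i, A i → C), IsTop A f e → DP A e →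
    KCA I C ∧ ∀ c : C, ∃ i, ∃ a : A i, c = e i a

/-- The result of the iteration. -/
structure ItW (κ : Cardinal.{u}) (I : Type u) [LinearOrder I] (A : I → Type u)
    [∀ i, CompleteBooleanAlgebra (A i)] (f : ∀ i j, A i → A j) (ι : ∀ i, H1.RO Sw.{u} → A i)
    (M : ∀ i, Set (A i)) (B : Type u) [CompleteBooleanAlgebra B] (e : ∀ i, A i → B) : Prop where
  good : GoodC κ A f ι M
  top : IsTop A f e
  epe : ∀ i, PE (e i)
  kc : KCA I B
  old : ∀ b : B, ∃ i, ∃ a : A i, b = e i a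
  pp : ∀ i, PP (fun x => e i (ι i x))
  mil : ∀ i, ∃ φ : MC (A i) → B, IsCE φ ∧ (∀ a, φ (mE (A i) a) = e i a) ∧ PRES φ

/-- ITW: the iteration. -/
def ItwStatement : Prop := ∀ (κ : Cardinal.{u}) (I : Type u) [LinearOrder I] [WellFoundedLT I],
  Idw κ I → ∃ (A : I → Type u) (_ : ∀ i, CompleteBooleanAlgebra (A i)) (f : ∀ i j, A i → A j)
    (ι : ∀ i, H1.RO Sw.{u} → A i) (M : ∀ i, Set (A i)) (B : Type u)
    (_ : CompleteBooleanAlgebra B) (e : ∀ i, A i → B), Nontrivial B ∧ ItW κ I A f ι M B e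

/-- REFW: closure points of uncountable cofinality. -/
def RefwStatement : Prop := ∀ (κ : Cardinal.{u}) (I : Type u) [LinearOrder I] [WellFoundedLT I],
  Idw κ I → ∀ (A : I → Type u) [∀ i, CompleteBooleanAlgebra (A i)] (f : ∀ i j, A i → A j)
  (ι : ∀ i, H1.RO Sw.{u} → A i) (M : ∀ i, Set (A i)) (B : Type u) [CompleteBooleanAlgebra B]
  (e : ∀ i, A i → B), ItW κ I A f ι M B e → ∀ K : (ℕ → ℕ → B) → Set (ℕ → ℕ → B),
  (∀ F, #(K F) < κ) → ∀ i0 : I, ∃ i, i0 < i ∧ UC i ∧ Order.IsSuccLimit i ∧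
    ∀ j < i, ∀ F : ℕ → ℕ → A j, (∀ n k, F n k ∈ M j) → ∀ R ∈ K (fun n k => e j (F n k)),
      ∃ R' : ℕ → ℕ → A i, ∀ n k, R n k = e i (R' n k)

/-- LOCW: elements of `N` come from an earlier stage. -/
def LocwStatement : Prop := ∀ (κ : Cardinal.{u}) (L : Type u) [LinearOrder L] (A : L → Type u)
  [∀ i, CompleteBooleanAlgebra (A i)] (f : ∀ i j, A i → A j) (ι : ∀ i, H1.RO Sw.{u} → A i)
  (M : ∀ i, Set (A i)), GoodC κ A f ι M → ∀ i, UC i → Order.IsSuccLimit i →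
  ∀ᶠ N in club, ∀ s : Sw.{u}, SG N s → ∃ j < i, ∀ a : A i, In N a →
    ∃ a' ∈ M j, ι i (pr s) ⊓ (gen (A i) N ⊓ a) = ι i (pr s) ⊓ (gen (A i) N ⊓ f j i a')

/-- DOMW: a function from an earlier stage dominates all functions with names in `N`. -/
def DomwStatement : Prop := ∀ (κ : Cardinal.{u}) (L : Type u) [LinearOrder L] (A : L → Type u)
  [∀ i, CompleteBooleanAlgebra (A i)] (f : ∀ i j, A i → A j) (ι : ∀ i, H1.RO Sw.{u} → A i)
  (M : ∀ i, Set (A i)), GoodC κ A f ι M → ∀ i, UC i → Order.IsSuccLimit i →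
  ∀ᶠ N in club, ∀ s : Sw.{u}, SG N s → ∃ j < i, ∃ F : ℕ → ℕ → A j, IsFN F ∧
    (∀ n k, F n k ∈ M j) ∧ ∀ H : ℕ → ℕ → A i, In N H → IsFN H → ∀ᶠ g in ae (A i),
      ι i (pr s) ∈ g → gen (A i) N ∈ g → ∃ m, ∀ n, m ≤ n → ∀ k, ∀ k' ≤ k,
        fv H g (Nat.pair n k') ≤ fv (fun n k => f j i (F n k)) g (Nat.pair n k)

/-- XSW1: an element `x` of the group at stage `i` for which case 1 fails over `N`. -/
def Xsw1Statement : Prop := ∀ (κ : Cardinal.{u}) (I : Type u) [LinearOrder I] [WellFoundedLT I],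
  Idw κ I → ∀ (A : I → Type u) [∀ i, CompleteBooleanAlgebra (A i)] (f : ∀ i j, A i → A j)
  (ι : ∀ i, H1.RO Sw.{u} → A i) (M : ∀ i, Set (A i)) (B : Type u) [CompleteBooleanAlgebra B]
  (e : ∀ i, A i → B), ItW κ I A f ι M B e → ∀ (Λ : Type v) (Γ : B) (D : GD B Λ), GDP Γ D →
  Cas1 Γ D → ∀ i0, ∃ i, i0 < i ∧ UC i ∧ ∀ᶠ N in club, ∀ s : Sw.{u}, SG N s →
  ∀ a : A i, a ≠ ⊥ → a ≤ ι i (pr s) ⊓ gen (A i) N → e i a ≤ Γ →
    ∃ b, b ≠ ⊥ ∧ b ≤ a ∧ ∃ (x : Λ) (X X' : ℕ → ℕ → A i), (∀ n k, D.rel x n k = e i (X n k)) ∧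
      (∀ n k, D.rel (D.inv x) n k = e i (X' n k)) ∧ ∀ᶠ g in ae (A i), b ∈ g →
        ∀ Ψ ψ : ℕ → ℕ → A i, In N Ψ → In N ψ → IsFN Ψ → IsFN ψ → ∀ m, ∃ n, m ≤ n ∧
          fv Ψ g (Nat.pair n (fv X' g (fv ψ g n))) < fv X g n

/-- XSW2: an element `x` of the group at stage `i` which is unbounded over `N`. -/
def Xsw2Statement : Prop := ∀ (κ : Cardinal.{u}) (I : Type u) [LinearOrder I] [WellFoundedLT I],
  Idw κ I → ∀ (A : I → Type u) [∀ i, CompleteBooleanAlgebra (A i)] (f : ∀ i j, A i → A j)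
  (ι : ∀ i, H1.RO Sw.{u} → A i) (M : ∀ i, Set (A i)) (B : Type u) [CompleteBooleanAlgebra B]
  (e : ∀ i, A i → B), ItW κ I A f ι M B e → ∀ (Λ : Type v) (Γ : B) (D : GD B Λ), GDP Γ D →
  ∀ i0, ∃ i, i0 < i ∧ UC i ∧ ∀ᶠ N in club, ∀ s : Sw.{u}, SG N s →
  ∀ a : A i, a ≠ ⊥ → a ≤ ι i (pr s) ⊓ gen (A i) N → e i a ≤ Γ →
    ∃ b, b ≠ ⊥ ∧ b ≤ a ∧ ∃ (x : Λ) (X X' : ℕ → ℕ → A i), (∀ n k, D.rel x n k = e i (X n k)) ∧
      (∀ n k, D.rel (D.inv x) n k = e i (X' n k)) ∧ ∀ᶠ g in ae (A i), b ∈ g →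
        ∀ H : ℕ → ℕ → A i, In N H → IsFN H → ∀ m, ∃ n, m ≤ n ∧ fv H g n < fv X g n

/-- CORW1: there is no group in case 1. -/
def Corw1Statement : Prop := ∀ (κ : Cardinal.{u}) (I : Type u) [LinearOrder I] [WellFoundedLT I],
  Idw κ I → ∀ (A : I → Type u) [∀ i, CompleteBooleanAlgebra (A i)] (f : ∀ i j, A i → A j)
  (ι : ∀ i, H1.RO Sw.{u} → A i) (M : ∀ i, Set (A i)) (B : Type u) [CompleteBooleanAlgebra B]
  (e : ∀ i, A i → B), ItW κ I A f ι M B e → ∀ (Λ : Type v) (Γ : B) (D : GD B Λ), GDP Γ D →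
  Cas1 Γ D → Γ = ⊥

/-- CORW2: there is no group in case 2. -/
def Corw2Statement : Prop := ∀ (κ : Cardinal.{u}) (I : Type u) [LinearOrder I] [WellFoundedLT I],
  Idw κ I → ∀ (A : I → Type u) [∀ i, CompleteBooleanAlgebra (A i)] (f : ∀ i j, A i → A j)
  (ι : ∀ i, H1.RO Sw.{u} → A i) (M : ∀ i, Set (A i)) (B : Type u) [CompleteBooleanAlgebra B]
  (e : ∀ i, A i → B), ItW κ I A f ι M B e → ∀ (Λ : Type v) (Γ : B) (D : GD B Λ), GDP Γ D →
  Cas2 Γ D → Γ = ⊥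

end Pool.Agent.Lib.MP_6d445e_gt
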