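import Pool.Agent.Lib.MP_6d445e_gt.W.All4
import Pool.Agent.Lib.MP_6d445e_gt.H22.Prlim

/-!
# The main theorem
-/

universe u

namespace Pool.Agent.Lib.MP_6d445e_gt.W.All

open Pool.Agent.Lib.MP_100a6c_lc
open Pool.Agent.Lib.MP_c5d73d_lc.F (ZFC)

theorem prlim : PrlimStatement.{u} := H22.prlim H95.lb itp H63.itp2 H82.sla seq H97.af

/-- The main theorem. -/
theorem main :
    (∃ (B : Type u) (_ : CompleteBooleanAlgebra B), (⊥ : B) ≠ ⊤ ∧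
      ZFC (VB B) = ⊤ ∧ MBSB (VB B) = ⊤) ∧
    ∃ (M : Type (u + 1)) (E : M → M → Prop),
      ZFC (⟨E, Eq⟩ : Str Prop M) ∧ MBSB (⟨E, Eq⟩ : Str Prop M) :=
  main_of1 prlim

end Pool.Agent.Lib.MP_6d445e_gt.W.All
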