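import Pool.Agent.Lib.MP_6d445e_gt.W.Final
import Pool.Agent.Lib.MP_6d445e_gt.H12.Suc
import Pool.Agent.Lib.MP_6d445e_gt.H12.Tree
import Pool.Agent.Lib.MP_6d445e_gt.H15.Stepw
import Pool.Agent.Lib.MP_6d445e_gt.H15.Top0w
import Pool.Agent.Lib.MP_6d445e_gt.H16.P2
import Pool.Agent.Lib.MP_6d445e_gt.H21.Disj
import Pool.Agent.Lib.MP_6d445e_gt.H21.Ng
import Pool.Agent.Lib.MP_6d445e_gt.H38.Seq
import Pool.Agent.Lib.MP_6d445e_gt.H38.Ub
import Pool.Agent.Lib.MP_6d445e_gt.H4.St1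
import Pool.Agent.Lib.MP_6d445e_gt.H47.NXT
import Pool.Agent.Lib.MP_6d445e_gt.H59.Ndmx
import Pool.Agent.Lib.MP_6d445e_gt.H59.Prc
import Pool.Agent.Lib.MP_6d445e_gt.H59.Toplw
import Pool.Agent.Lib.MP_6d445e_gt.H63.Itp2
import Pool.Agent.Lib.MP_6d445e_gt.H63.Dens
import Pool.Agent.Lib.MP_6d445e_gt.H70.Key
import Pool.Agent.Lib.MP_6d445e_gt.H70.Amf
import Pool.Agent.Lib.MP_6d445e_gt.H74.Pri
import Pool.Agent.Lib.MP_6d445e_gt.H75.Ari2
import Pool.Agent.Lib.MP_6d445e_gt.H82.Itp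
import Pool.Agent.Lib.MP_6d445e_gt.H82.Sla
import Pool.Agent.Lib.MP_6d445e_gt.H95.Lb
import Pool.Agent.Lib.MP_6d445e_gt.H95.Lp
import Pool.Agent.Lib.MP_6d445e_gt.H95.Okgw
import Pool.Agent.Lib.MP_6d445e_gt.H95.Sgs
import Pool.Agent.Lib.MP_6d445e_gt.H97.Ari

/-!
# The modules together, part 1: Miller forcing and the main lemma KEY
-/

universe u v

namespace Pool.Agent.Lib.MP_6d445e_gt.W.All

theorem lp : LpStatement.{u} := H95.lp H59.nd H59.mxf

theorem itp : ItpStatement.{u} := H82.itp H82.sla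

theorem tree : TreeStatement.{u} := H12.tree H59.nd H59.mxf lp H21.disj itp

theorem dens : DensStatement.{u} := H63.dens lp H95.lb tree H59.mxf

theorem amf : AmfStatement.{u, v} := H70.amf H59.nd H59.mxf

theorem nxt : NxtStatement.{u} := H47.nxt H59.nd

theorem suc : SucStatement.{u} := H12.suc dens H21.disj H21.ng itp H59.mxf H59.nd lp H82.sla

theorem st1 : St1Statement.{u} :=
  H4.st1 suc amf dens H21.ng itp H59.nd H59.mxf H82.sla lp

theorem key : KeyStatement.{u} := H70.key st1 H95.lb itp H82.sla nxt H59.nd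

theorem p2 : P2Statement.{u} := H16.p2 H21.ng H95.sgs

theorem prc : PrcStatement.{u} := H59.prc H95.lb itp H63.itp2 H82.sla

theorem ari1 : Ari1Statement := H97.ari1 H97.ari0

theorem ari2 : Ari2Statement := H75.ari2 H97.ari0

end Pool.Agent.Lib.MP_6d445e_gt.W.All
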