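import Pool.Agent.Lib.MP_6d445e_gt.W.All1
import Pool.Agent.Lib.MP_6d445e_gt.H4.Kccw
import Pool.Agent.Lib.MP_6d445e_gt.H4.Topmw
import Pool.Agent.Lib.MP_6d445e_gt.H16.Vbu
import Pool.Agent.Lib.MP_6d445e_gt.H20.Idw
import Pool.Agent.Lib.MP_6d445e_gt.H38.Gdx
import Pool.Agent.Lib.MP_6d445e_gt.H38.Vass
import Pool.Agent.Lib.MP_6d445e_gt.H50.Refw
import Pool.Agent.Lib.MP_6d445e_gt.H50.Xsw
import Pool.Agent.Lib.MP_6d445e_gt.H63.Corw1
import Pool.Agent.Lib.MP_6d445e_gt.H63.Corw2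
import Pool.Agent.Lib.MP_6d445e_gt.H64.Cas
import Pool.Agent.Lib.MP_6d445e_gt.H82.Vgr
import Pool.Agent.Lib.MP_6d445e_gt.H82.Vnb
import Pool.Agent.Lib.MP_6d445e_gt.H95.Domw
import Pool.Agent.Lib.MP_6d445e_gt.H96.Ppmil
import Pool.Agent.Lib.MP_6d445e_gt.H97.Af

/-!
# The modules together, part 2
-/

universe u v

namespace Pool.Agent.Lib.MP_6d445e_gt.W.All

theorem idw : IdwStatement.{u} := H20.idw

theorem kccw : KccwStatement.{u} := H4.kccw idw

theorem refw : RefwStatement.{u} := H50.refw idw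

theorem gdx : GdxStatement.{u, v} := H38.gdx H38.grq

theorem ppmil_of (hGap : GapStatement.{u}) : PpmilStatement.{u} :=
  H96.ppmil H95.lb itp H21.disj H21.ng hGap tree lp H59.mxf H59.nd amf H95.sgs

theorem corw1_of (hLoc : LocwStatement.{u}) : Corw1Statement.{u, v} :=
  H63.corw1 (H50.xsw1 refw (H95.domw hLoc)) H64.fin key H38.ub1 H97.ari0 ari1 nxt H95.sgs idw

theorem corw2_of (hLoc : LocwStatement.{u}) : Corw2Statement.{u, v} :=
  H63.corw2 (H50.xsw2 refw (H95.domw hLoc)) H64.fin key H38.ub2 H97.ari0 ari2 nxt H95.sgs idw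

theorem stepw_of (hPp : PplimStatement.{u}) (hPl : PrlimStatement.{u})
    (hPm : PrmilStatement.{u}) (hGap : GapStatement.{u}) : StepwStatement.{u} :=
  H15.stepw (H95.okgw H74.pri) (H15.top0w H95.sgs) (H59.toplw hPp hPl)
    (H4.topmw hPm H74.pri (ppmil_of hGap) prc)

theorem vass_of (hVfi : VfiStatement.{u}) (hVmb : VmbStatement.{u}) : VassStatement.{u} :=
  H38.vass H82.vgr H82.vnb H38.vdn H16.vbu hVmb (H38.vfd hVfi) gdx

end Pool.Agent.Lib.MP_6d445e_gt.W.All
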