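import Pool.Agent.Lib.MP_6d445e_gt.W.All2
import Pool.Agent.Lib.MP_6d445e_gt.H14.Itw
import Pool.Agent.Lib.MP_6d445e_gt.H14.Locw
import Pool.Agent.Lib.MP_6d445e_gt.H30.Gap
import Pool.Agent.Lib.MP_6d445e_gt.H34.Vlos

/-!
# The modules together, part 3
-/

universe u v

namespace Pool.Agent.Lib.MP_6d445e_gt.W.All

open Pool.Agent.Lib.MP_100a6c_lc
open Pool.Agent.Lib.MP_c5d73d_lc.F (ZFC)

theorem gap : GapStatement.{u} := H30.gap H21.disj H21.ng p2

theorem ppmil : PpmilStatement.{u} := ppmil_of gap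

theorem corw1 : Corw1Statement.{u, v} := corw1_of H14.locw

theorem corw2 : Corw2Statement.{u, v} := corw2_of H14.locw

theorem itw_of (hPp : PplimStatement.{u}) (hPl : PrlimStatement.{u})
    (hPm : PrmilStatement.{u}) : ItwStatement.{u} :=
  H14.itw idw (stepw_of hPp hPl hPm gap) (H95.okgw H74.pri) kccw hPp hPl prc H74.pri

/-- The main theorem from the five last modules. -/
theorem main_of5 (hPp : PplimStatement.{u}) (hPl : PrlimStatement.{u})
    (hPm : PrmilStatement.{u}) (hVfi : VfiStatement.{u}) (hVmb : VmbStatement.{u}) :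
    (∃ (B : Type u) (_ : CompleteBooleanAlgebra B), (⊥ : B) ≠ ⊤ ∧
      ZFC (VB B) = ⊤ ∧ MBSB (VB B) = ⊤) ∧
    ∃ (M : Type (u + 1)) (E : M → M → Prop),
      ZFC (⟨E, Eq⟩ : Str Prop M) ∧ MBSB (⟨E, Eq⟩ : Str Prop M) :=
  main_of idw (itw_of hPp hPl hPm) H64.cas corw1 corw2 (vass_of hVfi hVmb) H34.vlos

end Pool.Agent.Lib.MP_6d445e_gt.W.All
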