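import Pool.Agent.Lib.MP_6d445e_gt.W.All3
import Pool.Agent.Lib.MP_6d445e_gt.H23.Prmil
import Pool.Agent.Lib.MP_6d445e_gt.H32.Pplim
import Pool.Agent.Lib.MP_6d445e_gt.H94.Vfi
import Pool.Agent.Lib.MP_6d445e_gt.H94.Vmb

/-!
# The modules together, part 4
-/

universe u v

namespace Pool.Agent.Lib.MP_6d445e_gt.W.All

open Pool.Agent.Lib.MP_100a6c_lc
open Pool.Agent.Lib.MP_c5d73d_lc.F (ZFC)

theorem seq : SeqStatement.{u} := H38.seq H21.disj H21.ng H82.sla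

theorem prmil : PrmilStatement.{u} := H23.prmil dens seq amf itp H82.sla H59.mxf H59.nd lp

theorem pplim : PplimStatement.{u} :=
  H32.pplim H95.lb itp H63.itp2 H21.disj H21.ng gap H97.af H95.sgs

/-- The main theorem from the last module. -/
theorem main_of1 (hPl : PrlimStatement.{u}) :
    (∃ (B : Type u) (_ : CompleteBooleanAlgebra B), (⊥ : B) ≠ ⊤ ∧
      ZFC (VB B) = ⊤ ∧ MBSB (VB B) = ⊤) ∧
    ∃ (M : Type (u + 1)) (E : M → M → Prop),
      ZFC (⟨E, Eq⟩ : Str Prop M) ∧ MBSB (⟨E, Eq⟩ : Str Prop M) :=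
  main_of5 pplim hPl prmil H94.vfi (H94.vmb H94.vfi)

end Pool.Agent.Lib.MP_6d445e_gt.W.All
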