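import Pool.Agent.Lib.MP_6d445e_gt.V.Iface3
import Pool.Agent.Lib.MP_6d445e_gt.W.Iface4
import Pool.Agent.Lib.MP_e6fef2_lc.V.Assembly

/-!
# The final assembly, from the statements of the modules
-/

universe u v

open Cardinal Filter

namespace Pool.Agent.Lib.MP_6d445e_gt.W

open Pool.Agent.Lib.MP_100a6c_lc
open Pool.Agent.Lib.MP_c5d73d_lc.F (pr ZFC)
open Pool.Agent.Lib.MP_e6fef2_lc

/-- There is no counterexample in the extension by the iteration. -/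
theorem nogd_of (hCas : CasStatement.{u, u + 1}) (h1 : Corw1Statement.{u, u + 1})
    (h2 : Corw2Statement.{u, u + 1}) {κ : Cardinal.{u}} {I : Type u} [LinearOrder I]
    [WellFoundedLT I] (hI : Idw κ I) {A : I → Type u} [∀ i, CompleteBooleanAlgebra (A i)]
    {f : ∀ i j, A i → A j} {ι : ∀ i, H1.RO Sw.{u} → A i} {M : ∀ i, Set (A i)} {B : Type u}
    [CompleteBooleanAlgebra B] {e : ∀ i, A i → B} (h : ItW κ I A f ι M B e) : NoGD B := by
  intro Λ Γ D hD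
  by_contra hne
  rcases hCas B Λ Γ D hD hne with hc | ⟨a, ha, _, hDa, hc⟩
  · exact hne (h1 κ I hI A f ι M B e h Λ Γ D hD hc)
  · exact ha (h2 κ I hI A f ι M B e h Λ a D hDa hc)

/-- The main theorem from the statements of the modules. -/
theorem main_of (hId : IdwStatement.{u}) (hIt : ItwStatement.{u}) (hCas : CasStatement.{u, u + 1})
    (h1 : Corw1Statement.{u, u + 1}) (h2 : Corw2Statement.{u, u + 1}) (hV : VassStatement.{u})
    (hL : VlosStatement.{u}) :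
    (∃ (B : Type u) (_ : CompleteBooleanAlgebra B), (⊥ : B) ≠ ⊤ ∧
      ZFC (VB B) = ⊤ ∧ MBSB (VB B) = ⊤) ∧
    ∃ (M : Type (u + 1)) (E : M → M → Prop),
      ZFC (⟨E, Eq⟩ : Str Prop M) ∧ MBSB (⟨E, Eq⟩ : Str Prop M) := by
  obtain ⟨κ, hI⟩ := hId.1
  obtain ⟨A, _, f, ι, M, B, _, e, hB, h⟩ := hIt κ κ.ord.ToType hI
  have h3 : MBSB (VB B) = ⊤ := hV B (nogd_of hCas h1 h2 hI h)
  have h4 : (⊥ : B) ≠ ⊤ := bot_ne_top
  have h5 : ZFC (VB B) = ⊤ := zfc_top B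
  exact ⟨⟨B, inferInstance, h4, h5, h3⟩, hL B h4 h5 h3⟩

end Pool.Agent.Lib.MP_6d445e_gt.W
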